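import Pool.Agent.H93.CP.Targets

/-!
# Row GOO of cpt_modules
-/

set_option autoImplicit false

open Set Filter Topology

namespace Pool.Agent.H98.CP

open Pool.Agent.H93.CP

/-- A `G_δ` subset of a Polish space is Polish. -/
theorem polish_of_gdelta {α : Type} [TopologicalSpace α] [PolishSpace α] {s : Set α}
    (hs : IsGδ s) : PolishSpace s := by
  obtain ⟨f, hf, rfl⟩ := isGδ_iff_eq_iInter_nat.1 hs
  have : ∀ n, PolishSpace (f n) := fun n => (hf n).polishSpace
  let φ : (⋂ n, f n : Set α) → (∀ n, f n) := fun x n => ⟨x.1, mem_iInter.1 x.2 n⟩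
  have hφ : IsClosedEmbedding φ := by
    refine ⟨⟨⟨?_⟩, ?_⟩, ?_⟩
    · refine le_antisymm ?_ ?_
      · rw [← continuous_iff_le_induced]
        exact continuous_pi fun n => Continuous.subtype_mk continuous_subtype_val _
      · have : (instTopologicalSpaceSubtype : TopologicalSpace (⋂ n, f n : Set α)) =
            (TopologicalSpace.induced (fun g : (∀ n, f n) => (g 0 : α)) inferInstance).induced φ := by
          rw [induced_compose]
          rfl
        rw [this]
        refine induced_mono ?_
        rw [← continuous_iff_le_induced]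
        exact continuous_subtype_val.comp (continuous_apply 0)
    · intro x y hxy
      have := congrArg (fun g : (∀ n, f n) => (g 0 : α)) hxy
      exact Subtype.ext this
    · have : range φ = {g : ∀ n, f n | ∀ n, (g n : α) = g 0} := by
        ext g
        constructor
        · rintro ⟨x, rfl⟩ n
          rfl
        · intro hg
          refine ⟨⟨(g 0 : α), mem_iInter.2 fun n => ?_⟩, ?_⟩
          · rw [← hg n]
            exact (g n).2
          · funext n
            exact Subtype.ext (hg n).symm
      rw [this, ofPred_forall]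
      exact isClosed_iInter fun n => isClosed_eq
        (continuous_subtype_val.comp (continuous_apply n))
        (continuous_subtype_val.comp (continuous_apply 0))
  exact hφ.polishSpace

theorem pf_GOO (hDCS : T_DCS) (hTOP : T_TOP) (hCME : T_CME) (hCGD : T_CGD) (hCIN : T_CIN)
    (hCEF : T_CEF) (hCCL : T_CCL) : T_GOO := by
  intro G X _ _ _ _ _ _ _ _ _ _ _
  obtain ⟨D, cD, dD⟩ := hDCS G
  obtain ⟨t, ht⟩ := hTOP G X D cD
  have hGd := hCGD G X D t ht
  have hinv := hCIN G X D t ht
  have heff := hCEF G X D t ht
  have hcl := hCCL G X D t ht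
  letI tX : TopologicalSpace X := t
  have pX : PolishSpace X := ht.pol
  have bX : BorelSpace X := ht.bor
  have pY : PolishSpace (Core G t : Set X) := polish_of_gdelta hGd
  have hmeet : ∀ x : X, ∃ g : G, ∃ y : (Core G t : Set X), g • x = y.1 := by
    intro x
    have h1 := hCME G X D t ht x
    have h2 : ({g : G | g • x ∉ Core G t}ᶜ).Nonempty := by
      have h3 : Dense ({g : G | g • x ∉ Core G t}ᶜ) := dense_of_mem_residual h1
      exact h3.nonempty
    obtain ⟨g, hg⟩ := h2
    rw [mem_compl_iff, mem_ofPred_eq, not_not] at hg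
    exact ⟨g, ⟨g • x, hg⟩, rfl⟩
  letI mY : MetricSpace (Core G t : Set X) :=
    TopologicalSpace.completelyMetrizableMetric (Core G t : Set X)
  have cY : CompleteSpace (Core G t : Set X) :=
    TopologicalSpace.complete_completelyMetrizableMetric (Core G t : Set X)
  letI aY : MulAction D (Core G t : Set X) :=
    { smul := fun d y => ⟨(d : G) • y.1, hinv d d.2 y.1 y.2⟩
      one_smul := fun y => Subtype.ext (one_smul G y.1)
      mul_smul := fun a b y => Subtype.ext (mul_smul (a : G) (b : G) y.1) }
  refine ⟨{
    D := D
    cD := cD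
    dD := dD
    Y := (Core G t : Set X)
    mY := mY
    cY := cY
    sY := ?_
    nY := ?_
    aY := aY
    cont := ?_
    ι := Subtype.val
    inj := Subtype.val_injective
    meas := ?_
    smul := fun d y => rfl
    meet := hmeet
    eff := ?_
    cl := ?_ }⟩
  · exact (inferInstance : @SecondCountableTopology (Core G t : Set X) instTopologicalSpaceSubtype)
  · obtain ⟨g, y, -⟩ := hmeet (Classical.arbitrary X)
    exact ⟨y⟩
  · intro d
    have h1 : Continuous (fun x : X => (d : G) • x) := ht.dcont d d.2
    exact @Continuous.subtype_mk X (Core G t : Set X) _ _ _ _ (h1.comp continuous_subtype_val) _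
  · letI mB : MeasurableSpace (Core G t : Set X) := borel _
    have bB : @BorelSpace (Core G t : Set X) instTopologicalSpaceSubtype mB := ⟨rfl⟩
    have h1 : Continuous (fun y : (Core G t : Set X) => (y : X)) := continuous_subtype_val
    exact h1.measurable
  · intro y z m O hm hO hz
    obtain ⟨O', hO', rfl⟩ := isOpen_induced_iff.1 hO
    have hm' : m • y.1 = z.1 := hm
    have h1 : m • y.1 ∈ Core G t := by rw [hm']; exact z.2
    have h2 : m • y.1 ∈ O' := by rw [hm']; exact hz
    filter_upwards [heff y.1 m O' y.2 h1 hO' h2] with m' hm2 z' hz'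
    have hz2 : m' • y.1 = z'.1 := hz'
    have h3 := hm2 (by rw [hz2]; exact z'.2)
    rw [hz2] at h3
    exact h3
  · intro y z zn g gn hz hg h
    exact hcl y.1 z.1 (fun n => (zn n).1) g gn y.2 z.2 (fun n => (zn n).2)
      ((continuous_subtype_val.tendsto z).comp hz) hg h

end Pool.Agent.H98.CP
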